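import Pool.Agent.Helper960.Inf.Ops
import Pool.Agent.Helper960.Crg.Geo

open Filter Topology Metric

namespace Pool.Agent.Helper960.Inf

open Pool.Agent.Helper960.Crg (seg_bound ofReal_norm')

lemma G_ode {F : ℂ → ℂ} (hF : Differentiable ℂ F) (j : ℕ) (z : ℂ) :
    deriv (G F (j + 1)) z - (lam j : ℂ) * G F (j + 1) z = -(lam j : ℂ) * G F j z := by
  have h1 := G_rec hF j z
  have h2 : (lam j : ℂ) * (mu j : ℂ) = 1 := by
    have : lam j * mu j = 1 := by
      unfold mu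
      have := lam_pos j
      field_simp
    exact_mod_cast this
  rw [h1]
  linear_combination (deriv (G F (j + 1)) z) * (-h2)

lemma chain {F : ℂ → ℂ} (hF : Differentiable ℂ F) {z v : ℂ} {Tm M Λ : ℝ} {k : ℕ}
    (hv : ‖v‖ = 1) (hM : 0 ≤ M) (hΛ : ∀ i, i < k → lam i ≤ Λ) (hΛ0 : 0 ≤ Λ)
    (h0 : ∀ τ : ℝ, 0 ≤ τ → τ ≤ Tm → ‖G F 0 (z + τ * v)‖ ≤ M)
    (hs : ∀ j ≤ k, ‖G F j (z + Tm * v)‖ ≤ M) :
    ∀ j ≤ k, ∀ s : ℝ, 0 ≤ s → s ≤ Tm →
      ‖G F j (z + s * v)‖ ≤ M * (Real.exp (Λ * Tm) * (1 + Λ * Tm)) ^ j := by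
  intro j
  induction j with
  | zero =>
    intro _ s hs0 hs1
    rw [pow_zero, mul_one]
    exact h0 s hs0 hs1
  | succ j ih =>
    intro hj s hs0 hs1
    have hT : 0 ≤ Tm := hs0.trans hs1
    have hΛT : 0 ≤ Λ * Tm := by positivity
    have hlj := hΛ j (by omega)
    have hlp := lam_pos j
    set Q : ℝ := Real.exp (Λ * Tm) * (1 + Λ * Tm) with hQ
    have hE : 1 ≤ Real.exp (Λ * Tm) := Real.one_le_exp hΛT
    have hQ1 : 1 ≤ Q := by nlinarith
    have hQj : 1 ≤ Q ^ j := one_le_pow₀ hQ1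
    have hvre : |v.re| ≤ 1 := by
      rw [← hv]; exact Complex.abs_re_le_norm v
    have hre : ∀ τ : ℝ, 0 ≤ τ → -(τ * ((lam j : ℂ) * v).re) ≤ Λ * τ := by
      intro τ hτ
      rw [Complex.re_ofReal_mul]
      have h1 : -v.re ≤ 1 := (neg_le_abs _).trans hvre
      have h2 : lam j * (-v.re) ≤ Λ := by
        calc lam j * (-v.re) ≤ lam j * 1 := by gcongr
          _ ≤ Λ := by rw [mul_one]; exact hlj
      nlinarith
    have key := seg_bound (G_diff hF (j + 1)) (lam j : ℂ) (z + s * v) v (Tm := Tm - s)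
      (B := (Λ * (M * Q ^ j)) * Real.exp (Λ * Tm)) (by linarith) (by
        intro τ hτ0 hτ1
        rw [G_ode hF, norm_mul, norm_neg, ofReal_norm' hlp.le]
        have h1 : z + s * v + τ * v = z + ((s + τ : ℝ) : ℂ) * v := by push_cast; ring
        rw [h1]
        have h2 := ih (by omega) (s + τ) (by linarith) (by linarith)
        have h3 : Real.exp (-(τ * ((lam j : ℂ) * v).re)) ≤ Real.exp (Λ * Tm) := by
          apply Real.exp_le_exp.mpr
          refine (hre τ hτ0).trans ?_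
          gcongr
          linarith
        gcongr)
    have h4 : z + s * v + ((Tm - s : ℝ) : ℂ) * v = z + Tm * v := by push_cast; ring
    rw [h4, hv, one_mul] at key
    have h5 := hs (j + 1) hj
    have h6 : Real.exp (-((Tm - s) * ((lam j : ℂ) * v).re)) ≤ Real.exp (Λ * Tm) := by
      apply Real.exp_le_exp.mpr
      refine (hre (Tm - s) (by linarith)).trans ?_
      gcongr
      linarith
    calc ‖G F (j + 1) (z + s * v)‖ ≤ M * Real.exp (Λ * Tm) +
          Λ * (M * Q ^ j) * Real.exp (Λ * Tm) * Tm := by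
          refine key.trans ?_
          have h7 : Tm - s ≤ Tm := by linarith
          have h8 : 0 ≤ Λ * (M * Q ^ j) * Real.exp (Λ * Tm) := by positivity
          have h9 := mul_le_mul_of_nonneg_left h7 h8
          have h10 : ‖G F (j + 1) (z + Tm * v)‖ * Real.exp (-((Tm - s) * ((lam j : ℂ) * v).re)) ≤
              M * Real.exp (Λ * Tm) := by gcongr
          linarith
      _ ≤ M * Q ^ j * Real.exp (Λ * Tm) + Λ * (M * Q ^ j) * Real.exp (Λ * Tm) * Tm := by
          have : M * 1 ≤ M * Q ^ j := by gcongr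
          gcongr
          linarith
      _ = M * Q ^ (j + 1) := by rw [pow_succ, hQ]; ring

lemma sq_le_lam (k : ℕ) : ((k : ℝ) + 1) ^ 2 ≤ lam k := by
  have h1 := lam_pow k
  have h2 : ((k : ℝ) + 1) ^ 2 ≤ 8 * 2 ^ k := by
    have : ∀ k : ℕ, (k + 1) ^ 2 ≤ 4 * 2 ^ k := by
      intro k
      induction k with
      | zero => norm_num
      | succ k ih =>
        rcases Nat.lt_or_ge k 2 with h | h
        · interval_cases k <;> norm_num
        · rw [pow_succ 2 k]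
          nlinarith
    have h3 : (((k + 1) ^ 2 : ℕ) : ℝ) ≤ ((4 * 2 ^ k : ℕ) : ℝ) := by exact_mod_cast this k
    push_cast at h3
    have : (0 : ℝ) < 2 ^ k := by positivity
    linarith
  linarith

lemma tendsto_lam : Tendsto lam atTop atTop := by
  apply tendsto_atTop_mono (fun k => sq_le_lam k)
  apply tendsto_atTop_mono (f := fun k : ℕ => (k : ℝ))
  · intro k
    have : (0 : ℝ) ≤ k := Nat.cast_nonneg k
    nlinarith
  · exact tendsto_natCast_atTop_atTop

theorem claimA {F : ℂ → ℂ} (hF : Differentiable ℂ F) {C B : ℝ} (hC : 1 ≤ C) (hB : 0 ≤ B)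
    (hFb : ∀ z, ‖F z‖ ≤ C * Real.exp (B * ‖z‖ ^ 2))
    (hf : ∀ z, G F 0 z = Complex.exp (z ^ 2)) {ε : ℝ} (hε : 0 < ε) :
    ∀ᶠ k : ℕ in atTop, ∀ u : ℂ, ‖u‖ = 1 → (u ^ 2).re ≤ 0 → ∀ τ : ℝ, lam k ^ 2 ≤ τ →
      τ ≤ 2 * lam k ^ 2 → ‖F (τ * u)‖ ≤ Real.exp (ε * τ ^ 2) := by
  set e : ℝ := min 1 (ε / (16 * (B + 1))) with he
  have he0 : 0 < e := lt_min one_pos (by positivity)
  have he1 : e ≤ 1 := min_le_left _ _
  have he2 : 2 * B * e ^ 2 ≤ ε / 8 := by
    have h1 : e ≤ ε / (16 * (B + 1)) := min_le_right _ _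
    rw [le_div_iff₀ (by positivity)] at h1
    have h2 : e ^ 2 ≤ e := by nlinarith
    nlinarith
  have ev1 : ∀ᶠ k : ℕ in atTop, 32 / ε ≤ (k : ℝ) :=
    tendsto_natCast_atTop_atTop.eventually_ge_atTop _
  have ev2 : ∀ᶠ k : ℕ in atTop, (2 * B + Real.log (2 * C) + 1) * 8 / ε ≤ lam k :=
    tendsto_lam.eventually_ge_atTop _
  have ev3 : ∀ᶠ k : ℕ in atTop, 9 * B + Real.log (4 * C) ≤ lam k :=
    tendsto_lam.eventually_ge_atTop _
  have ev4 : ∀ᶠ k : ℕ in atTop, 2 / ε ≤ lam k := tendsto_lam.eventually_ge_atTop _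
  filter_upwards [ev1, ev2, ev3, ev4] with k hk1 hk2 hk3 hk4 u hu hure τ hτ1 hτ2
  set Λ : ℝ := lam k with hΛ
  have hΛ8 : 8 ≤ Λ := lam_ge k
  have hΛ0 : 0 < Λ := by linarith
  set r : ℝ := Λ ^ 2 with hr
  have hr1 : 1 ≤ r := by nlinarith
  have hr0 : 0 < r := by linarith
  have hΛr : Λ ≤ r := by nlinarith
  have hτ0 : 0 < τ := by linarith
  set M : ℝ := 2 * (C * Real.exp (B * (e * r + 1) ^ 2)) with hM
  have hM1 : 1 ≤ M := by
    have : 1 ≤ Real.exp (B * (e * r + 1) ^ 2) := Real.one_le_exp (by positivity)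
    nlinarith
  have hM0 : 0 ≤ M := by linarith
  -- the segment from `τ u` towards `e r u`
  have hpt : ∀ s : ℝ, (τ : ℂ) * u + s * (-u) = ((τ - s : ℝ) : ℂ) * u := by
    intro s; push_cast; ring
  have h0 : ∀ s : ℝ, 0 ≤ s → s ≤ τ - e * r → ‖G F 0 ((τ : ℂ) * u + s * (-u))‖ ≤ M := by
    intro s hs0 hs1
    rw [hf, hpt, Complex.norm_exp]
    have h1 : ((((τ - s : ℝ) : ℂ) * u) ^ 2).re = (τ - s) ^ 2 * (u ^ 2).re := by
      have : (((τ - s : ℝ) : ℂ) * u) ^ 2 = (((τ - s) ^ 2 : ℝ) : ℂ) * u ^ 2 := by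
        push_cast; ring
      rw [this, Complex.re_ofReal_mul]
    rw [h1]
    have h2 : (τ - s) ^ 2 * (u ^ 2).re ≤ 0 := mul_nonpos_of_nonneg_of_nonpos (sq_nonneg _) hure
    calc Real.exp ((τ - s) ^ 2 * (u ^ 2).re) ≤ Real.exp 0 := Real.exp_le_exp.mpr h2
      _ = 1 := Real.exp_zero
      _ ≤ M := hM1
  have hstart : ∀ j ≤ k + 1, ‖G F j ((τ : ℂ) * u + ((τ - e * r : ℝ) : ℂ) * (-u))‖ ≤ M := by
    intro j _
    rw [hpt, sub_sub_cancel]
    apply G_bound hF
    intro w hw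
    refine (hFb w).trans ?_
    have h1 : ‖w‖ ≤ e * r + 1 := by
      have h2 := norm_add_le (w - ((e * r : ℝ) : ℂ) * u) (((e * r : ℝ) : ℂ) * u)
      rw [sub_add_cancel, norm_mul, hu, mul_one, ofReal_norm' (by positivity)] at h2
      linarith
    gcongr
  have hch := chain hF (z := (τ : ℂ) * u) (v := -u) (Tm := τ - e * r) (M := M) (Λ := Λ)
    (k := k + 1) (by rw [norm_neg, hu]) hM0 (fun i hi => lam_mono (by omega)) hΛ0.le h0 hstart
    (k + 1) le_rfl 0 le_rfl (by nlinarith)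
  rw [Complex.ofReal_zero, zero_mul, add_zero] at hch
  -- size of the chain factor
  have hT0 : 0 ≤ τ - e * r := by nlinarith
  have hfac : (Real.exp (Λ * (τ - e * r)) * (1 + Λ * (τ - e * r))) ^ (k + 1) ≤
      Real.exp (4 * ((k : ℝ) + 1) * Λ * r) := by
    have h1 : 1 + Λ * (τ - e * r) ≤ Real.exp (Λ * (τ - e * r)) := by
      have := Real.add_one_le_exp (Λ * (τ - e * r))
      linarith
    calc (Real.exp (Λ * (τ - e * r)) * (1 + Λ * (τ - e * r))) ^ (k + 1) ≤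
          (Real.exp (Λ * (τ - e * r)) * Real.exp (Λ * (τ - e * r))) ^ (k + 1) := by
          apply pow_le_pow_left₀ (by positivity)
          gcongr
      _ = Real.exp (2 * ((k : ℝ) + 1) * (Λ * (τ - e * r))) := by
          rw [← Real.exp_add, ← Real.exp_nat_mul]
          congr 1
          push_cast
          ring
      _ ≤ _ := by
          apply Real.exp_le_exp.mpr
          have h2 : τ - e * r ≤ 2 * r := by nlinarith
          have h3 : Λ * (τ - e * r) ≤ Λ * (2 * r) := by gcongr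
          have h4 : (0 : ℝ) ≤ 2 * ((k : ℝ) + 1) := by positivity
          calc 2 * ((k : ℝ) + 1) * (Λ * (τ - e * r)) ≤ 2 * ((k : ℝ) + 1) * (Λ * (2 * r)) := by
                gcongr
            _ = _ := by ring
  have hmu : mu (k + 1) = Real.exp (-(r ^ 3)) := by
    unfold mu
    rw [lam_succ, one_div, ← Real.exp_neg, hr]
    congr 1
    rw [hΛ]; ring
  have hcl := G_close hF (z := (τ : ℂ) * u) (M := C * Real.exp (B * (2 * r + 1) ^ 2)) (by
    intro w hw
    refine (hFb w).trans ?_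
    have h1 : ‖w‖ ≤ 2 * r + 1 := by
      have h2 := norm_add_le (w - (τ : ℂ) * u) ((τ : ℂ) * u)
      rw [sub_add_cancel, norm_mul, hu, mul_one, ofReal_norm' hτ0.le] at h2
      linarith
    gcongr) (k + 1)
  rw [hmu] at hcl
  have hk0 : (0 : ℝ) ≤ k := Nat.cast_nonneg k
  -- first term
  have t1 : ‖G F (k + 1) ((τ : ℂ) * u)‖ ≤ Real.exp (ε / 2 * r ^ 2) := by
    refine hch.trans ?_
    have h1 : (1 : ℝ) ≤ 2 * C := by linarith
    have e1 : (2 : ℝ) * C = Real.exp (Real.log (2 * C)) := by rw [Real.exp_log (by linarith)]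
    calc M * (Real.exp (Λ * (τ - e * r)) * (1 + Λ * (τ - e * r))) ^ (k + 1) ≤
          M * Real.exp (4 * ((k : ℝ) + 1) * Λ * r) := by gcongr
      _ = Real.exp (Real.log (2 * C) + B * (e * r + 1) ^ 2 + 4 * ((k : ℝ) + 1) * Λ * r) := by
          rw [Real.exp_add, Real.exp_add, ← e1, hM]; ring
      _ ≤ _ := by
          apply Real.exp_le_exp.mpr
          have h2 : B * (e * r + 1) ^ 2 ≤ 2 * B * e ^ 2 * r ^ 2 + 2 * B := by
            nlinarith [mul_nonneg hB (sq_nonneg (e * r - 1))]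
          have h3 : 2 * B * e ^ 2 * r ^ 2 ≤ ε / 8 * r ^ 2 := by gcongr
          have h4 : 4 * ((k : ℝ) + 1) * Λ * r ≤ ε / 8 * r ^ 2 := by
            have h5 : 4 * ((k : ℝ) + 1) ≤ ε / 8 * Λ := by
              have h6 : ((k : ℝ) + 1) ^ 2 ≤ Λ := sq_le_lam k
              rw [div_le_iff₀ hε] at hk1
              have h7 : 32 * ((k : ℝ) + 1) ≤ ε * ((k : ℝ) + 1) ^ 2 := by nlinarith
              nlinarith
            calc 4 * ((k : ℝ) + 1) * Λ * r ≤ ε / 8 * Λ * Λ * r := by gcongr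
              _ = ε / 8 * r ^ 2 := by rw [hr]; ring
          have h5 : 2 * B + Real.log (2 * C) ≤ ε / 8 * r ^ 2 := by
            rw [div_le_iff₀ hε] at hk2
            have h6 : Λ ≤ r ^ 2 := by nlinarith
            nlinarith
          nlinarith [sq_nonneg r]
  have t2 : 4 * Real.exp (-(r ^ 3)) * (C * Real.exp (B * (2 * r + 1) ^ 2)) ≤ 1 := by
    have e1 : (4 : ℝ) * C = Real.exp (Real.log (4 * C)) := by rw [Real.exp_log (by linarith)]
    calc 4 * Real.exp (-(r ^ 3)) * (C * Real.exp (B * (2 * r + 1) ^ 2)) =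
          (4 * C) * (Real.exp (-(r ^ 3)) * Real.exp (B * (2 * r + 1) ^ 2)) := by ring
      _ = Real.exp (Real.log (4 * C) + (-(r ^ 3) + B * (2 * r + 1) ^ 2)) := by
          rw [Real.exp_add, ← e1, Real.exp_add]
      _ ≤ Real.exp 0 := by
          apply Real.exp_le_exp.mpr
          have h1' : (2 * r + 1) ^ 2 ≤ 9 * r ^ 2 := by nlinarith
          have h1 : B * (2 * r + 1) ^ 2 ≤ 9 * B * r ^ 2 := by
            have := mul_le_mul_of_nonneg_left h1' hB
            linarith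
          have h2 : 0 ≤ Real.log (4 * C) := Real.log_nonneg (by linarith)
          have h3 : Real.log (4 * C) ≤ Real.log (4 * C) * r ^ 2 :=
            le_mul_of_one_le_right h2 (one_le_pow₀ hr1)
          have h4 : (9 * B + Real.log (4 * C)) * r ^ 2 ≤ r * r ^ 2 := by
            gcongr
            linarith
          nlinarith
      _ = 1 := Real.exp_zero
  have hx : 2 ≤ Real.exp (ε / 2 * r ^ 2) := by
    have h1 : 1 ≤ ε / 2 * r ^ 2 := by
      rw [div_le_iff₀ hε] at hk4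
      have h6 : Λ ≤ r ^ 2 := by nlinarith
      nlinarith
    have h2 := Real.add_one_le_exp (ε / 2 * r ^ 2)
    linarith
  have h5 : ‖F ((τ : ℂ) * u)‖ ≤ ‖G F (k + 1) ((τ : ℂ) * u)‖ +
      ‖G F (k + 1) ((τ : ℂ) * u) - F ((τ : ℂ) * u)‖ := by
    have := norm_sub_le (G F (k + 1) ((τ : ℂ) * u))
      (G F (k + 1) ((τ : ℂ) * u) - F ((τ : ℂ) * u))
    rwa [sub_sub_cancel] at this
  calc ‖F ((τ : ℂ) * u)‖ ≤ Real.exp (ε / 2 * r ^ 2) + 1 := by linarith
    _ ≤ Real.exp (ε / 2 * r ^ 2) * Real.exp (ε / 2 * r ^ 2) := by nlinarith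
    _ = Real.exp (ε * r ^ 2) := by rw [← Real.exp_add]; ring_nf
    _ ≤ Real.exp (ε * τ ^ 2) := by gcongr

end Pool.Agent.Helper960.Inf
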