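import Pool.Agent.Helper960.Inf.ClaimA

open Filter Topology Metric MeasureTheory

namespace Pool.Agent.Helper960.Inf

open Pool.Agent.Helper960.Crg (seg_bound ofReal_norm')

lemma gauss_lower {Λ : ℝ} (hΛ : 8 ≤ Λ) :
    Real.exp (-(Λ ^ 2 / 4)) ≤ ‖∫ y in (-(2 * Λ))..(2 * Λ),
      Complex.exp (Complex.I * Λ * y) * Complex.exp (-(1 : ℂ) * (y : ℂ) ^ 2)‖ := by
  set φ : ℝ → ℂ := fun y => Complex.exp (Complex.I * Λ * y) *
    Complex.exp (-(1 : ℂ) * (y : ℂ) ^ 2) with hφ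
  have hnorm : ∀ y : ℝ, ‖φ y‖ = Real.exp (-1 * y ^ 2) := by
    intro y
    simp only [hφ]
    rw [norm_mul, Complex.norm_exp, Complex.norm_exp]
    have h1 : (Complex.I * (Λ : ℂ) * (y : ℂ)).re = 0 := by simp
    have h2 : (-(1 : ℂ) * (y : ℂ) ^ 2).re = -1 * y ^ 2 := by
      have : -(1 : ℂ) * (y : ℂ) ^ 2 = ((-1 * y ^ 2 : ℝ) : ℂ) := by push_cast; ring
      rw [this, Complex.ofReal_re]
    rw [h1, h2, Real.exp_zero, one_mul]
  have hcont : Continuous φ := by
    simp only [hφ]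
    fun_prop
  have hint : Integrable φ := by
    apply Integrable.mono' (integrable_exp_neg_mul_sq (b := 1) one_pos) hcont.aestronglyMeasurable
    exact Eventually.of_forall (fun y => (hnorm y).le)
  have hfull : ∫ y : ℝ, φ y = ((Real.pi : ℂ) / 1) ^ (1 / 2 : ℂ) *
      Complex.exp (-(Λ : ℂ) ^ 2 / (4 * 1)) := by
    exact fourierIntegral_gaussian (b := 1) (by simp) (Λ : ℂ)
  have hfn : ‖∫ y : ℝ, φ y‖ = Real.sqrt Real.pi * Real.exp (-(Λ ^ 2 / 4)) := by
    rw [hfull, norm_mul, div_one, Complex.norm_cpow_eq_rpow_re_of_pos Real.pi_pos,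
      Complex.norm_exp, Real.sqrt_eq_rpow]
    have h1 : ((1 : ℂ) / 2).re = 1 / 2 := by simp
    have h2 : (-(Λ : ℂ) ^ 2 / (4 * 1)).re = -(Λ ^ 2 / 4) := by
      have : -(Λ : ℂ) ^ 2 / (4 * 1) = ((-(Λ ^ 2 / 4) : ℝ) : ℂ) := by push_cast; ring
      rw [this, Complex.ofReal_re]
    rw [h1, h2]
  have hle : -(2 * Λ) ≤ 2 * Λ := by linarith
  rw [intervalIntegral.integral_of_le hle]
  have hsplit := integral_add_compl (measurableSet_Ioc (a := -(2 * Λ)) (b := 2 * Λ)) hint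
  have htail : ‖∫ y in (Set.Ioc (-(2 * Λ)) (2 * Λ))ᶜ, φ y‖ ≤
      Real.exp (-(2 * Λ ^ 2)) * Real.sqrt (2 * Real.pi) := by
    have hg : Integrable (fun y : ℝ => Real.exp (-(2 * Λ ^ 2)) * Real.exp (-(1 / 2) * y ^ 2)) :=
      (integrable_exp_neg_mul_sq (b := 1 / 2) (by norm_num)).const_mul _
    calc ‖∫ y in (Set.Ioc (-(2 * Λ)) (2 * Λ))ᶜ, φ y‖ ≤
          ∫ y in (Set.Ioc (-(2 * Λ)) (2 * Λ))ᶜ, Real.exp (-(2 * Λ ^ 2)) *
            Real.exp (-(1 / 2) * y ^ 2) := by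
          apply norm_integral_le_of_norm_le hg.integrableOn
          rw [ae_restrict_iff' measurableSet_Ioc.compl]
          apply Eventually.of_forall
          intro y hy
          rw [hnorm, ← Real.exp_add]
          apply Real.exp_le_exp.mpr
          have h1 : 2 * Λ ≤ |y| := by
            by_contra hcon
            push Not at hcon
            rw [abs_lt] at hcon
            exact hy ⟨hcon.1, hcon.2.le⟩
          have h2 : (2 * Λ) ^ 2 ≤ y ^ 2 := by
            rw [← sq_abs y]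
            exact pow_le_pow_left₀ (by linarith) h1 2
          nlinarith
      _ ≤ ∫ y : ℝ, Real.exp (-(2 * Λ ^ 2)) * Real.exp (-(1 / 2) * y ^ 2) := by
          apply setIntegral_le_integral hg
          exact Eventually.of_forall (fun y => by positivity)
      _ = _ := by
          rw [integral_const_mul, integral_gaussian]
          congr 2
          ring
  have h1 : ‖∫ y : ℝ, φ y‖ ≤ ‖∫ y in Set.Ioc (-(2 * Λ)) (2 * Λ), φ y‖ +
      ‖∫ y in (Set.Ioc (-(2 * Λ)) (2 * Λ))ᶜ, φ y‖ := by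
    rw [← hsplit]
    exact norm_add_le _ _
  rw [hfn] at h1
  have hpi1 : (1.7 : ℝ) ≤ Real.sqrt Real.pi := by
    apply Real.le_sqrt_of_sq_le
    have := Real.pi_gt_three
    norm_num
    linarith
  have hpi2 : Real.sqrt (2 * Real.pi) ≤ 3 := by
    rw [Real.sqrt_le_left (by norm_num)]
    have := Real.pi_le_four
    linarith
  have h2 : Real.exp (-(2 * Λ ^ 2)) ≤ Real.exp (-(Λ ^ 2 / 4)) * (1 / 8) := by
    have h3 : Real.exp (-(2 * Λ ^ 2)) = Real.exp (-(Λ ^ 2 / 4)) * Real.exp (-(7 * Λ ^ 2 / 4)) := by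
      rw [← Real.exp_add]; ring_nf
    rw [h3]
    have h4 : Real.exp (-(7 * Λ ^ 2 / 4)) ≤ 1 / 8 := by
      have h5 : (8 : ℝ) ≤ Real.exp (7 * Λ ^ 2 / 4) := by
        have := Real.add_one_le_exp (7 * Λ ^ 2 / 4)
        nlinarith
      rw [Real.exp_neg, inv_le_comm₀ (Real.exp_pos _) (by norm_num)]
      simpa using h5
    gcongr
  have h3 := Real.exp_pos (-(Λ ^ 2 / 4))
  have h4 : Real.exp (-(2 * Λ ^ 2)) * Real.sqrt (2 * Real.pi) ≤
      Real.exp (-(Λ ^ 2 / 4)) * (1 / 8) * 3 := by gcongr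
  have h5 : 1.7 * Real.exp (-(Λ ^ 2 / 4)) ≤ Real.sqrt Real.pi * Real.exp (-(Λ ^ 2 / 4)) := by
    gcongr
  show Real.exp (-(Λ ^ 2 / 4)) ≤ ‖∫ y in Set.Ioc (-(2 * Λ)) (2 * Λ), φ y‖
  linarith

/-- the integral along the vertical segment -/
noncomputable def J (F : ℂ → ℂ) (Λ : ℝ) (j : ℕ) : ℂ :=
  ∫ y in (-(2 * Λ))..(2 * Λ), Complex.exp (-(Λ * (Λ + y * Complex.I))) *
    G F j (Λ + y * Complex.I)

lemma G_cont {F : ℂ → ℂ} (hF : Differentiable ℂ F) (Λ : ℝ) (j : ℕ) :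
    Continuous (fun y : ℝ => Complex.exp (-(Λ * (Λ + y * Complex.I))) *
      G F j (Λ + y * Complex.I)) := by
  have h1 : Continuous (fun y : ℝ => (Λ : ℂ) + y * Complex.I) := by fun_prop
  exact (Complex.continuous_exp.comp ((continuous_const.mul h1).neg)).mul
    ((G_diff hF j).continuous.comp h1)

lemma J_rec {F : ℂ → ℂ} (hF : Differentiable ℂ F) (Λ : ℝ) (j : ℕ) :
    Complex.I * (((lam j : ℂ) - Λ) * J F Λ (j + 1) - (lam j : ℂ) * J F Λ j) =
      Complex.exp (-(Λ * (Λ + (2 * Λ : ℝ) * Complex.I))) *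
        G F (j + 1) (Λ + (2 * Λ : ℝ) * Complex.I) -
      Complex.exp (-(Λ * (Λ + (-(2 * Λ) : ℝ) * Complex.I))) *
        G F (j + 1) (Λ + (-(2 * Λ) : ℝ) * Complex.I) := by
  have hder : ∀ y : ℝ, HasDerivAt (fun y : ℝ => Complex.exp (-(Λ * (Λ + y * Complex.I))) *
      G F (j + 1) (Λ + y * Complex.I))
      (Complex.I * (((lam j : ℂ) - Λ) * (Complex.exp (-(Λ * (Λ + y * Complex.I))) *
        G F (j + 1) (Λ + y * Complex.I)) - (lam j : ℂ) *
        (Complex.exp (-(Λ * (Λ + y * Complex.I))) * G F j (Λ + y * Complex.I)))) y := by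
    intro y
    have h1 : HasDerivAt (fun z : ℂ => (Λ : ℂ) + z * Complex.I) Complex.I (y : ℂ) := by
      have := ((hasDerivAt_id (y : ℂ)).mul_const Complex.I).const_add (Λ : ℂ)
      simpa using this
    have h2 : HasDerivAt (fun z : ℂ => G F (j + 1) (Λ + z * Complex.I))
        (deriv (G F (j + 1)) (Λ + y * Complex.I) * Complex.I) (y : ℂ) := by
      have hG := (G_diff hF (j + 1) (Λ + y * Complex.I)).hasDerivAt
      exact HasDerivAt.comp (h₂ := G F (j + 1)) (y : ℂ) hG h1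
    have h3 : HasDerivAt (fun z : ℂ => Complex.exp (-(Λ * (Λ + z * Complex.I))))
        (Complex.exp (-(Λ * (Λ + y * Complex.I))) * (-(Λ * Complex.I))) (y : ℂ) :=
      ((h1.const_mul (Λ : ℂ)).neg).cexp
    have h4 := (h3.mul h2).comp_ofReal
    have h5 := G_ode hF j (Λ + y * Complex.I)
    have e : Complex.I * (((lam j : ℂ) - Λ) * (Complex.exp (-(Λ * (Λ + y * Complex.I))) *
        G F (j + 1) (Λ + y * Complex.I)) - (lam j : ℂ) *
        (Complex.exp (-(Λ * (Λ + y * Complex.I))) * G F j (Λ + y * Complex.I))) =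
        Complex.exp (-(Λ * (Λ + y * Complex.I))) * (-(Λ * Complex.I)) *
          G F (j + 1) (Λ + y * Complex.I) + Complex.exp (-(Λ * (Λ + y * Complex.I))) *
          (deriv (G F (j + 1)) (Λ + y * Complex.I) * Complex.I) := by
      linear_combination (-Complex.exp (-(Λ * (Λ + y * Complex.I))) * Complex.I) * h5
    rw [e]
    exact h4
  have hc1 := G_cont hF Λ (j + 1)
  have hc0 := G_cont hF Λ j
  have hint := intervalIntegral.integral_eq_sub_of_hasDerivAt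
    (a := -(2 * Λ)) (b := 2 * Λ) (fun y _ => hder y)
    ((continuous_const.mul ((continuous_const.mul hc1).sub
      (continuous_const.mul hc0))).intervalIntegrable _ _)
  rw [← hint, intervalIntegral.integral_const_mul, intervalIntegral.integral_sub,
    intervalIntegral.integral_const_mul, intervalIntegral.integral_const_mul]
  · rfl
  · exact (continuous_const.mul hc1).intervalIntegrable _ _
  · exact (continuous_const.mul hc0).intervalIntegrable _ _

theorem claimB {F : ℂ → ℂ} (hF : Differentiable ℂ F)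
    (hf : ∀ z, G F 0 z = Complex.exp (z ^ 2)) (k : ℕ)
    (hb1 : ∀ z : ℂ, ‖z - (lam k + (2 * lam k : ℝ) * Complex.I)‖ ≤ 1 →
      ‖F z‖ ≤ Real.exp (lam k ^ 2 / 8))
    (hb2 : ∀ z : ℂ, ‖z - (lam k + (-(2 * lam k) : ℝ) * Complex.I)‖ ≤ 1 →
      ‖F z‖ ≤ Real.exp (lam k ^ 2 / 8)) : False := by
  set Λ : ℝ := lam k with hΛ
  have hΛ8 : 8 ≤ Λ := lam_ge k
  set τ : ℝ := Real.exp (-(7 * Λ ^ 2 / 8)) with hτ
  have hτ0 : 0 < τ := Real.exp_pos _
  have hstep : ∀ j, lam j * ‖J F Λ j‖ ≤ |lam j - Λ| * ‖J F Λ (j + 1)‖ + 4 * τ := by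
    intro j
    have h1 := J_rec hF Λ j
    have h2 := G_bound hF hb1 (j + 1)
    have h3 := G_bound hF hb2 (j + 1)
    have hexp : ∀ y : ℝ, ‖Complex.exp (-((Λ : ℂ) * (Λ + y * Complex.I)))‖ =
        Real.exp (-(Λ ^ 2)) := by
      intro y
      rw [Complex.norm_exp]
      congr 1
      simp
      ring
    have h4 : ‖Complex.I * (((lam j : ℂ) - Λ) * J F Λ (j + 1) - (lam j : ℂ) * J F Λ j)‖ ≤
        4 * τ := by
      rw [h1]
      refine (norm_sub_le _ _).trans ?_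
      rw [norm_mul, norm_mul, hexp, hexp]
      have h5 : Real.exp (-(Λ ^ 2)) * (2 * Real.exp (Λ ^ 2 / 8)) = 2 * τ := by
        rw [hτ, mul_left_comm, ← Real.exp_add]; ring_nf
      have h6 : Real.exp (-(Λ ^ 2)) * ‖G F (j + 1) (Λ + (2 * Λ : ℝ) * Complex.I)‖ ≤
          Real.exp (-(Λ ^ 2)) * (2 * Real.exp (Λ ^ 2 / 8)) := by gcongr
      have h7 : Real.exp (-(Λ ^ 2)) * ‖G F (j + 1) (Λ + (-(2 * Λ) : ℝ) * Complex.I)‖ ≤
          Real.exp (-(Λ ^ 2)) * (2 * Real.exp (Λ ^ 2 / 8)) := by gcongr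
      linarith
    rw [norm_mul, Complex.norm_I, one_mul] at h4
    have h5 : ‖(lam j : ℂ) * J F Λ j‖ ≤ ‖((lam j : ℂ) - Λ) * J F Λ (j + 1)‖ +
        ‖((lam j : ℂ) - Λ) * J F Λ (j + 1) - (lam j : ℂ) * J F Λ j‖ := by
      have := norm_sub_le (((lam j : ℂ) - Λ) * J F Λ (j + 1))
        (((lam j : ℂ) - Λ) * J F Λ (j + 1) - (lam j : ℂ) * J F Λ j)
      rwa [sub_sub_cancel] at this
    rw [norm_mul, norm_mul, ofReal_norm' (lam_pos j).le] at h5
    have h6 : ‖(lam j : ℂ) - Λ‖ = |lam j - Λ| := by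
      rw [← Complex.ofReal_sub, Complex.norm_real, Real.norm_eq_abs]
    rw [h6] at h5
    linarith
  have hind : ∀ i ≤ k, ‖J F Λ (k - i)‖ ≤ (Λ + 1) ^ i * τ := by
    intro i
    induction i with
    | zero =>
      intro _
      have h1 := hstep k
      rw [← hΛ, sub_self, abs_zero, zero_mul, zero_add] at h1
      rw [Nat.sub_zero, pow_zero, one_mul]
      nlinarith [norm_nonneg (J F Λ k)]
    | succ i ih =>
      intro hi
      have h1 := ih (by omega)
      have h2 := hstep (k - (i + 1))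
      have e : k - (i + 1) + 1 = k - i := by omega
      rw [e] at h2
      have h3 : lam (k - (i + 1)) ≤ Λ := lam_mono (by omega)
      have h4 := lam_ge (k - (i + 1))
      have h5 : |lam (k - (i + 1)) - Λ| ≤ Λ := by
        rw [abs_le]; constructor <;> linarith
      have h6 : 1 ≤ (Λ + 1) ^ i := one_le_pow₀ (by linarith)
      have h7 : |lam (k - (i + 1)) - Λ| * ‖J F Λ (k - i)‖ ≤ Λ * ((Λ + 1) ^ i * τ) := by gcongr
      have h8 : 8 * ‖J F Λ (k - (i + 1))‖ ≤ lam (k - (i + 1)) * ‖J F Λ (k - (i + 1))‖ := by gcongr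
      have h9 : τ ≤ (Λ + 1) ^ i * τ := le_mul_of_one_le_left hτ0.le h6
      have h10 : 0 ≤ Λ * ((Λ + 1) ^ i * τ) := by positivity
      calc ‖J F Λ (k - (i + 1))‖ ≤ Λ * ((Λ + 1) ^ i * τ) + (Λ + 1) ^ i * τ := by linarith
        _ = _ := by rw [pow_succ]; ring
  have h0 := hind k le_rfl
  rw [Nat.sub_self] at h0
  have hJ0 : J F Λ 0 = ∫ y in (-(2 * Λ))..(2 * Λ),
      Complex.exp (Complex.I * Λ * y) * Complex.exp (-(1 : ℂ) * (y : ℂ) ^ 2) := by
    unfold J
    apply intervalIntegral.integral_congr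
    intro y _
    simp only []
    rw [hf, ← Complex.exp_add, ← Complex.exp_add]
    congr 1
    have hI : Complex.I ^ 2 = -1 := Complex.I_sq
    linear_combination ((y : ℂ) ^ 2) * hI
  have hlow := gauss_lower hΛ8
  rw [← hJ0] at hlow
  have hk : (k : ℝ) ≤ Λ / 8 := by
    have h1 := lam_pow k
    have h2 : (k : ℝ) ≤ 2 ^ k := by exact_mod_cast (Nat.lt_two_pow_self (n := k)).le
    rw [← hΛ] at h1
    linarith
  have hpow : (Λ + 1) ^ k ≤ Real.exp (Λ ^ 2 / 8) := by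
    calc (Λ + 1) ^ k ≤ (Real.exp Λ) ^ k := by
          apply pow_le_pow_left₀ (by linarith)
          exact Real.add_one_le_exp Λ
      _ = Real.exp (k * Λ) := by rw [← Real.exp_nat_mul]
      _ ≤ _ := by
          apply Real.exp_le_exp.mpr
          nlinarith
  have h1 : Real.exp (-(Λ ^ 2 / 4)) ≤ Real.exp (-(3 * Λ ^ 2 / 4)) := by
    calc Real.exp (-(Λ ^ 2 / 4)) ≤ ‖J F Λ 0‖ := hlow
      _ ≤ (Λ + 1) ^ k * τ := h0
      _ ≤ Real.exp (Λ ^ 2 / 8) * τ := by gcongr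
      _ = _ := by rw [hτ, ← Real.exp_add]; ring_nf
  have h2 := Real.exp_le_exp.mp h1
  nlinarith

end Pool.Agent.Helper960.Inf
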