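import Pool.Agent.Helper960.Inf.Main

open Filter Topology Metric MeasureTheory

namespace Pool.Agent.Helper960.Inf

open Pool.Agent.Helper960.Crg (ofReal_norm' coeff_unique)

/-- the symbol `∏ (1 - t / lam k)` -/
noncomputable def phi (t : ℂ) : ℂ := ∑' n, (ac n 0 : ℂ) * t ^ n

lemma ac0_bound (n : ℕ) : |ac n 0| ≤ (1 / 4) ^ n / n.factorial := by
  refine (ac_bound n 0).trans ?_
  have h := two_mu 0
  have := h.1.le
  gcongr
  exact h.2

lemma exp_hasSum (x : ℝ) : HasSum (fun n : ℕ => (1 / 4 * x) ^ n / n.factorial)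
    (Real.exp (1 / 4 * x)) := by
  have := NormedSpace.expSeries_div_hasSum_exp (1 / 4 * x)
  rwa [← Real.exp_eq_exp_ℝ] at this

lemma phi_term {r : ℝ} {t : ℂ} (ht : ‖t‖ ≤ r) (n : ℕ) :
    ‖(ac n 0 : ℂ) * t ^ n‖ ≤ (1 / 4 * r) ^ n / n.factorial := by
  rw [norm_mul, Complex.norm_real, Real.norm_eq_abs, norm_pow]
  calc |ac n 0| * ‖t‖ ^ n ≤ ((1 / 4) ^ n / n.factorial) * r ^ n := by
        gcongr
        exact ac0_bound n
    _ = _ := by rw [mul_pow]; ring

lemma phi_hasSum (t : ℂ) : HasSum (fun n => (ac n 0 : ℂ) * t ^ n) (phi t) :=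
  (Summable.of_norm_bounded (exp_hasSum ‖t‖).summable (phi_term le_rfl)).hasSum

lemma phi_diff : Differentiable ℂ phi := by
  intro t
  have h : DifferentiableOn ℂ phi (ball 0 (‖t‖ + 1)) := by
    apply Complex.differentiableOn_tsum_of_summable_norm (exp_hasSum (‖t‖ + 1)).summable
      (fun n => (((differentiable_id.pow n).const_mul (ac n 0 : ℂ)).differentiableOn))
      isOpen_ball
    intro n w hw
    rw [mem_ball_zero_iff] at hw
    exact phi_term hw.le n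
  exact h.differentiableAt (isOpen_ball.mem_nhds (by rw [mem_ball_zero_iff]; linarith))

lemma phi_bound (t : ℂ) : ‖phi t‖ ≤ 1 * Real.exp (1 / 4 * ‖t‖) := by
  rw [one_mul]
  exact tsum_of_norm_bounded (exp_hasSum ‖t‖) (phi_term le_rfl)

lemma phi_zero : phi 0 = 1 := by
  unfold phi
  rw [tsum_eq_single 0 (fun n hn => by simp [hn])]
  simp [ac_zero]

lemma phi_coeff (n : ℕ) : iteratedDeriv n phi 0 / (n.factorial : ℂ) = (ac n 0 : ℂ) := by
  symm
  refine coeff_unique (a := fun n => (ac n 0 : ℂ))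
    (b := fun n => iteratedDeriv n phi 0 / (n.factorial : ℂ)) (F := phi) ?_ ?_ n
  · exact Eventually.of_forall phi_hasSum
  · apply Eventually.of_forall
    intro z
    have h1 := Complex.hasSum_taylorSeries_of_entire phi_diff 0 z
    simp only [sub_zero, smul_eq_mul] at h1
    have e : (fun k : ℕ => iteratedDeriv k phi 0 / (k.factorial : ℂ) * z ^ k) =
        fun k : ℕ => (k.factorial : ℂ)⁻¹ * (z ^ k * iteratedDeriv k phi 0) := by
      funext k; ring
    show HasSum (fun k : ℕ => iteratedDeriv k phi 0 / (k.factorial : ℂ) * z ^ k) (phi z)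
    rw [e]
    exact h1

lemma opD_phi (F : ℂ → ℂ) (z : ℂ) : opD phi F z = G F 0 z := by
  unfold opD G
  congr 1
  funext n
  rw [phi_coeff]

lemma rpow_two' (r : ℝ) : r ^ ((fun _ : ℝ => (2 : ℝ)) r) = r ^ 2 := by
  simp

lemma ediv_self {a r : ℝ} (hr : 0 < r) :
    ENNReal.log (ENNReal.ofReal (Real.exp (r ^ 2 * a))) / ((r ^ 2 : ℝ) : EReal) = (a : EReal) := by
  rw [ENNReal.log_ofReal_of_pos (Real.exp_pos _), Real.log_exp, ← EReal.coe_div]
  congr 1
  have : r ^ 2 ≠ 0 := by positivity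
  field_simp

lemma f_typ : typ (fun _ => 2) (fun z => Complex.exp (z ^ 2)) = 1 := by
  unfold typ
  have h : (fun r : ℝ => ENNReal.log (⨆ z ∈ sphere (0 : ℂ) r, ‖Complex.exp (z ^ 2)‖ₑ) /
      ((r ^ ((fun _ : ℝ => (2 : ℝ)) r) : ℝ) : EReal)) =ᶠ[atTop] fun _ => ((1 : ℝ) : EReal) := by
    filter_upwards [eventually_gt_atTop 0] with r hr
    rw [rpow_two']
    have h1 : (⨆ z ∈ sphere (0 : ℂ) r, ‖Complex.exp (z ^ 2)‖ₑ) =
        ENNReal.ofReal (Real.exp (r ^ 2 * 1)) := by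
      apply le_antisymm
      · apply sup_le_of (F := fun z => Complex.exp (z ^ 2))
        intro z hz
        rw [mul_one, ← hz]
        exact norm_f_le z
      · have h2 : ‖Complex.exp ((r : ℂ) ^ 2)‖ₑ = ENNReal.ofReal (Real.exp (r ^ 2 * 1)) := by
          rw [← ofReal_norm, Complex.norm_exp, mul_one, ← Complex.ofReal_pow, Complex.ofReal_re]
        rw [← h2]
        exact le_iSup₂_of_le (f := fun z (_ : z ∈ sphere (0 : ℂ) r) => ‖Complex.exp (z ^ 2)‖ₑ)
          (r : ℂ) (by rw [mem_sphere_zero_iff_norm]; exact ofReal_norm' hr.le) le_rfl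
    rw [h1, ediv_self hr]
  rw [limsup_congr h, limsup_const]
  rfl

lemma f_ind (θ : ℝ) : indicator (fun _ => 2) (fun z => Complex.exp (z ^ 2)) θ =
    (Real.cos (2 * θ) : EReal) := by
  unfold indicator
  have h : (fun r : ℝ => ENNReal.log ‖Complex.exp (((r : ℂ) *
      Complex.exp (θ * Complex.I)) ^ 2)‖ₑ / ((r ^ ((fun _ : ℝ => (2 : ℝ)) r) : ℝ) : EReal))
      =ᶠ[atTop] fun _ => (Real.cos (2 * θ) : EReal) := by
    filter_upwards [eventually_gt_atTop 0] with r hr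
    rw [rpow_two', ← ofReal_norm, norm_f, ediv_self hr]
  rw [limsup_congr h, limsup_const]

lemma f_crg : CRG (fun _ => 2) (fun z => Complex.exp (z ^ 2)) := by
  refine ⟨(differentiable_id.pow 2).cexp, ?_, fun θ => Real.cos (2 * θ), f_ind, fun _ => 0,
    fun _ => 0, fun _ => le_rfl, ?_, ?_⟩
  · rw [f_typ]
    exact EReal.coe_lt_top 1
  · have : (fun R : ℝ => (∑' _ : ℕ, if ‖(0 : ℂ)‖ < R then ENNReal.ofReal (0 : ℝ) else 0) /
        ENNReal.ofReal R) = fun _ => 0 := by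
      funext R
      simp
    rw [this]
    exact tendsto_const_nhds
  · intro ε hε
    refine ⟨0, fun r hr θ _ => ?_⟩
    simp only []
    rw [norm_f]
    have h2 : r ^ (2 : ℝ) = r ^ 2 := by norm_num
    rw [h2]
    have h3 : 0 ≤ r ^ 2 := sq_nonneg r
    constructor
    · apply Real.exp_le_exp.mpr
      nlinarith
    · apply Real.exp_le_exp.mpr
      nlinarith

lemma f_po : IsProximateOrder (fun _ => 2) 2 := by
  refine ⟨⟨0, fun r _ => differentiableAt_const _⟩, tendsto_const_nhds, ?_⟩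
  simp

theorem final : ∃ φ : ℂ → ℂ, ExpType φ ∧ (∃ t, φ t ≠ 0) ∧
    (IsProximateOrder (fun _ => 2) 2 ∧ 0 < typ (fun _ => 2) (fun z => Complex.exp (z ^ 2)) ∧
      CRG (fun _ => 2) (fun z => Complex.exp (z ^ 2))) ∧
    ∀ ρ : ℝ → ℝ, 0 < typ ρ (fun z => Complex.exp (z ^ 2)) → CRG ρ (fun z => Complex.exp (z ^ 2)) →
      ∀ F : ℂ → ℂ, Differentiable ℂ F → (∀ z, opD φ F z = Complex.exp (z ^ 2)) → ¬ CRG ρ F := by
  refine ⟨phi, ⟨phi_diff, 1, 1 / 4, phi_bound⟩, ⟨0, by rw [phi_zero]; exact one_ne_zero⟩,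
    ⟨f_po, by rw [f_typ]; exact zero_lt_one, f_crg⟩, ?_⟩
  intro ρ h1 h2 F _ hF
  obtain ⟨c₁, c₂, hc₁, hc₂, hV⟩ := V_comparable h1 h2
  apply no_crg _ hc₁ hc₂ hV
  intro z
  rw [← opD_phi]
  exact hF z

end Pool.Agent.Helper960.Inf
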