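import Pool.Agent.Helper960.Inf.ClaimB
import Pool.Agent.Helper960.Crg.Exc
import Pool.Agent.Helper960.Crg.Disc

open Filter Topology Metric MeasureTheory

namespace Pool.Agent.Helper960.Inf

open Pool.Agent.Helper960.Crg (ofReal_norm' Thin circ elog_le_iff le_elog_iff max_princ coeff_unique)

/-- exponential type -/
def ExpType (f : ℂ → ℂ) : Prop :=
  Differentiable ℂ f ∧ ∃ A B : ℝ, ∀ z, ‖f z‖ ≤ A * Real.exp (B * ‖z‖)

/-- The operator `φ(D) F = ∑ aₖ F⁽ᵏ⁾`. -/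
noncomputable def opD (φ F : ℂ → ℂ) (z : ℂ) : ℂ :=
  ∑' k : ℕ, iteratedDeriv k φ 0 / (k.factorial : ℂ) * iteratedDeriv k F z

/-- proximate order -/
def IsProximateOrder (ρ : ℝ → ℝ) (ρ₀ : ℝ) : Prop :=
  (∃ r₀ : ℝ, ∀ r > r₀, DifferentiableAt ℝ ρ r) ∧ Tendsto ρ atTop (𝓝 ρ₀) ∧
    Tendsto (fun r : ℝ => r * deriv ρ r * Real.log r) atTop (𝓝 0)

/-- `limsup r^{-ρ(r)} log M_F(r)` -/
noncomputable def typ (ρ : ℝ → ℝ) (F : ℂ → ℂ) : EReal :=
  limsup (fun r : ℝ => ENNReal.log (⨆ z ∈ sphere (0 : ℂ) r, ‖F z‖ₑ) / ((r ^ ρ r : ℝ) : EReal)) atTop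

/-- indicator -/
noncomputable def indicator (ρ : ℝ → ℝ) (F : ℂ → ℂ) (θ : ℝ) : EReal :=
  limsup (fun r : ℝ =>
    ENNReal.log ‖F (r * Complex.exp (θ * Complex.I))‖ₑ / ((r ^ ρ r : ℝ) : EReal)) atTop

/-- completely regular growth with respect to `ρ(r)` -/
def CRG (ρ : ℝ → ℝ) (F : ℂ → ℂ) : Prop :=
  Differentiable ℂ F ∧ typ ρ F < ⊤ ∧ ∃ h : ℝ → ℝ, (∀ θ, indicator ρ F θ = h θ) ∧
    ∃ (c : ℕ → ℂ) (s : ℕ → ℝ), (∀ j, 0 ≤ s j) ∧
      Tendsto (fun R : ℝ =>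
        (∑' j, if ‖c j‖ < R then ENNReal.ofReal (s j) else 0) / ENNReal.ofReal R) atTop (𝓝 0) ∧
      ∀ ε > 0, ∃ R₀ : ℝ, ∀ r ≥ R₀, ∀ θ : ℝ,
        (∀ j, s j ≤ ‖r * Complex.exp (θ * Complex.I) - c j‖) →
          Real.exp ((h θ - ε) * r ^ ρ r) ≤ ‖F (r * Complex.exp (θ * Complex.I))‖ ∧
          ‖F (r * Complex.exp (θ * Complex.I))‖ ≤ Real.exp ((h θ + ε) * r ^ ρ r)

lemma re_sq_polar (r θ : ℝ) :
    (((r : ℂ) * Complex.exp (θ * Complex.I)) ^ 2).re = r ^ 2 * Real.cos (2 * θ) := by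
  have : ((r : ℂ) * Complex.exp (θ * Complex.I)) ^ 2 =
      ((r ^ 2 : ℝ) : ℂ) * Complex.exp (((2 * θ : ℝ) : ℂ) * Complex.I) := by
    rw [mul_pow, ← Complex.exp_nat_mul]
    push_cast
    ring_nf
  rw [this, Complex.re_ofReal_mul, Complex.exp_ofReal_mul_I_re]

lemma norm_polar {r : ℝ} (hr : 0 ≤ r) (θ : ℝ) : ‖(r : ℂ) * Complex.exp (θ * Complex.I)‖ = r := by
  rw [norm_mul, Complex.norm_exp_ofReal_mul_I, mul_one, ofReal_norm' hr]

lemma Vpos {ρ : ℝ → ℝ} {r : ℝ} (hr : 0 < r) : 0 < r ^ ρ r := Real.rpow_pos_of_pos hr _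

/-- maximum modulus on circles -/
lemma sup_le_of {F : ℂ → ℂ} {r M : ℝ} (h : ∀ z : ℂ, ‖z‖ = r → ‖F z‖ ≤ M) :
    (⨆ z ∈ sphere (0 : ℂ) r, ‖F z‖ₑ) ≤ ENNReal.ofReal M := by
  apply iSup₂_le
  intro z hz
  rw [mem_sphere_zero_iff_norm] at hz
  rw [← ofReal_norm]
  exact ENNReal.ofReal_le_ofReal (h z hz)

lemma typ_upper {ρ : ℝ → ℝ} {F : ℂ → ℂ} (h : typ ρ F < ⊤) :
    ∃ B : ℝ, ∀ᶠ r : ℝ in atTop, ∀ z : ℂ, ‖z‖ = r → ‖F z‖ ≤ Real.exp (B * r ^ ρ r) := by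
  obtain ⟨B, hB1, hB2⟩ := EReal.lt_iff_exists_real_btwn.mp h
  refine ⟨B, ?_⟩
  filter_upwards [eventually_lt_of_limsup_lt hB1, eventually_gt_atTop 0] with r hr hr0 z hz
  rw [← elog_le_iff (norm_nonneg _) (Vpos hr0)]
  refine le_trans ?_ hr.le
  apply EReal.div_le_div_right_of_nonneg
  · exact_mod_cast (Vpos (ρ := ρ) hr0).le
  · rw [ENNReal.log_le_log_iff, ofReal_norm]
    exact le_iSup₂_of_le (f := fun z (_ : z ∈ sphere (0 : ℂ) r) => ‖F z‖ₑ) z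
      (mem_sphere_zero_iff_norm.mpr hz) le_rfl

lemma ind_upper {ρ : ℝ → ℝ} {F : ℂ → ℂ} {θ h b : ℝ} (hh : indicator ρ F θ = h) (hb : h < b) :
    ∀ᶠ r : ℝ in atTop, ‖F (r * Complex.exp (θ * Complex.I))‖ ≤ Real.exp (b * r ^ ρ r) := by
  have h1 : indicator ρ F θ < (b : EReal) := by rw [hh]; exact_mod_cast hb
  filter_upwards [eventually_lt_of_limsup_lt h1, eventually_gt_atTop 0] with r hr hr0
  rw [← elog_le_iff (norm_nonneg _) (Vpos hr0), ofReal_norm]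
  exact hr.le

lemma norm_f (r θ : ℝ) : ‖Complex.exp (((r : ℂ) * Complex.exp (θ * Complex.I)) ^ 2)‖ =
    Real.exp (r ^ 2 * Real.cos (2 * θ)) := by
  rw [Complex.norm_exp, re_sq_polar]

lemma norm_f_le (z : ℂ) : ‖Complex.exp (z ^ 2)‖ ≤ Real.exp (‖z‖ ^ 2) := by
  rw [Complex.norm_exp]
  apply Real.exp_le_exp.mpr
  calc (z ^ 2).re ≤ ‖z ^ 2‖ := Complex.re_le_norm _
    _ = ‖z‖ ^ 2 := norm_pow _ _

lemma cos_ge_half {θ : ℝ} (h0 : 0 ≤ θ) (h1 : θ ≤ Real.pi / 8) : 1 / 2 ≤ Real.cos (2 * θ) := by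
  rw [← Real.cos_pi_div_three]
  apply Real.cos_le_cos_of_nonneg_of_le_pi (by linarith)
  · linarith [Real.pi_pos]
  · linarith [Real.pi_pos]

lemma exists_angle {r s : ℝ} (hr : 0 < r) (hs0 : 0 < s) (hs : s < 1 / 4 * r) :
    ∃ θ : ℝ, 0 ≤ θ ∧ θ ≤ Real.pi / 8 ∧ ‖(r : ℂ) * Complex.exp (θ * Complex.I) - r‖ = s := by
  have hcont : Continuous (fun θ : ℝ => ‖(r : ℂ) * Complex.exp (θ * Complex.I) - r‖) := by
    fun_prop
  have h0 : ‖(r : ℂ) * Complex.exp ((0 : ℝ) * Complex.I) - r‖ = 0 := by simp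
  have h1 : s ≤ ‖(r : ℂ) * Complex.exp ((Real.pi / 8 : ℝ) * Complex.I) - r‖ := by
    have e : (r : ℂ) * Complex.exp ((Real.pi / 8 : ℝ) * Complex.I) - r =
        (r : ℂ) * (Complex.exp (Complex.I * (Real.pi / 8 : ℝ)) - 1) := by
      rw [mul_comm ((Real.pi / 8 : ℝ) : ℂ)]; ring
    rw [e, norm_mul, ofReal_norm' hr.le, Complex.norm_exp_I_mul_ofReal_sub_one, Real.norm_eq_abs]
    have h2 : 2 / Real.pi * (Real.pi / 8 / 2) ≤ Real.sin (Real.pi / 8 / 2) :=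
      Real.mul_le_sin (by linarith [Real.pi_pos]) (by linarith [Real.pi_pos])
    have h3 : 2 / Real.pi * (Real.pi / 8 / 2) = 1 / 8 := by
      have := Real.pi_pos.ne'
      field_simp
    rw [h3] at h2
    have h4 : 2 * Real.sin (Real.pi / 8 / 2) ≤ |2 * Real.sin (Real.pi / 8 / 2)| := le_abs_self _
    nlinarith
  have := intermediate_value_Icc (a := (0 : ℝ)) (b := Real.pi / 8) (by linarith [Real.pi_pos])
    hcont.continuousOn
  obtain ⟨θ, hθ, h2⟩ := this ⟨by rw [h0]; exact hs0.le, h1⟩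
  exact ⟨θ, hθ.1, hθ.2, h2⟩

lemma V_comparable {ρ : ℝ → ℝ} (h1 : 0 < typ ρ (fun z => Complex.exp (z ^ 2)))
    (h2 : CRG ρ (fun z => Complex.exp (z ^ 2))) :
    ∃ c₁ c₂ : ℝ, 0 < c₁ ∧ 0 < c₂ ∧ ∀ᶠ r : ℝ in atTop, c₁ * r ^ 2 ≤ r ^ ρ r ∧
      r ^ ρ r ≤ c₂ * r ^ 2 := by
  obtain ⟨-, htyp, h, hh, c, s, hs, hthin, hreg⟩ := h2
  -- the lower bound for `V`
  obtain ⟨B, hB⟩ := typ_upper htyp
  have hlow : ∀ᶠ r : ℝ in atTop, (|B| + 1)⁻¹ * r ^ 2 ≤ r ^ ρ r := by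
    filter_upwards [hB, eventually_gt_atTop 0] with r hr hr0
    have h3 := hr (r : ℂ) (ofReal_norm' hr0.le)
    rw [Complex.norm_exp] at h3
    have h4 : ((r : ℂ) ^ 2).re = r ^ 2 := by
      rw [← Complex.ofReal_pow, Complex.ofReal_re]
    rw [h4] at h3
    have h5 := Real.exp_le_exp.mp h3
    have h6 := Vpos (ρ := ρ) hr0
    have h7 : B * r ^ ρ r ≤ (|B| + 1) * r ^ ρ r := by
      gcongr
      linarith [le_abs_self B]
    rw [inv_mul_le_iff₀ (by positivity)]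
    linarith
  -- the upper bound along a sequence
  obtain ⟨L, hL1, hL2⟩ := EReal.lt_iff_exists_real_btwn.mp h1
  have hL0 : 0 < L := by exact_mod_cast hL1
  have hfr : ∃ᶠ r : ℝ in atTop, L * r ^ ρ r ≤ r ^ 2 := by
    have h3 := (frequently_lt_of_lt_limsup (by isBoundedDefault) hL2).and_eventually
      (eventually_gt_atTop 0)
    refine h3.mono (fun r hr => ?_)
    have hr0 := hr.2
    have h4 : ENNReal.log (⨆ z ∈ sphere (0 : ℂ) r, ‖Complex.exp (z ^ 2)‖ₑ) /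
        ((r ^ ρ r : ℝ) : EReal) ≤
        ENNReal.log (ENNReal.ofReal (Real.exp (r ^ 2))) / ((r ^ ρ r : ℝ) : EReal) := by
      apply EReal.div_le_div_right_of_nonneg
      · exact_mod_cast (Vpos (ρ := ρ) hr0).le
      · rw [ENNReal.log_le_log_iff]
        apply sup_le_of (F := fun z => Complex.exp (z ^ 2))
        intro z hz
        rw [← hz]
        exact norm_f_le z
    have h5 := (le_elog_iff (Real.exp_pos _).le (Vpos hr0)).mp (hr.1.le.trans h4)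
    exact Real.exp_le_exp.mp h5
  have hh0 : ∀ θ : ℝ, 0 ≤ θ → θ ≤ Real.pi / 8 → L / 2 ≤ h θ := by
    intro θ h0 h1
    by_contra hcon
    push Not at hcon
    set b : ℝ := (max (h θ) 0 + L / 2) / 2 with hb
    have hm : max (h θ) 0 < L / 2 := max_lt hcon (by positivity)
    have hm0 : 0 ≤ max (h θ) 0 := le_max_right _ _
    have hm1 : h θ ≤ max (h θ) 0 := le_max_left _ _
    have hb0 : 0 < b := by rw [hb]; linarith
    have hb1 : h θ < b := by rw [hb]; linarith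
    have hb2 : b < L / 2 := by rw [hb]; linarith
    obtain ⟨r, hr1, hr2, hr0⟩ := (hfr.and_eventually
      ((ind_upper (hh θ) hb1).and (eventually_gt_atTop 0))).exists
    rw [norm_f] at hr2
    have h3 := Real.exp_le_exp.mp hr2
    have h4 := cos_ge_half h0 h1
    have h5 := Vpos (ρ := ρ) hr0
    have h6 : 0 < r ^ 2 := by positivity
    have h7 : r ^ 2 * (1 / 2) ≤ r ^ 2 * Real.cos (2 * θ) := by gcongr
    have h8 : b * r ^ ρ r < L / 2 * r ^ ρ r := by gcongr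
    linarith
  obtain ⟨R₀, hR₀⟩ := hreg (L / 4) (by positivity)
  obtain ⟨R₁, hR₁, hcirc⟩ := circ (c := c) (ρ := s) ⟨hs, hthin⟩ (δ := 1 / 4) (by norm_num)
    (by norm_num)
  refine ⟨(|B| + 1)⁻¹, 4 / L, by positivity, by positivity, ?_⟩
  filter_upwards [hlow, eventually_gt_atTop 0, eventually_ge_atTop R₀, eventually_ge_atTop R₁] with
    r hr1 hr0 hrR₀ hrR₁
  refine ⟨hr1, ?_⟩
  obtain ⟨s', hs'0, hs'1, hs'2⟩ := hcirc (r : ℂ) (by rw [ofReal_norm' hr0.le]; exact hrR₁)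
  rw [ofReal_norm' hr0.le] at hs'1
  obtain ⟨θ, hθ0, hθ1, hθ2⟩ := exists_angle hr0 hs'0 hs'1
  have h3 := (hR₀ r hrR₀ θ (hs'2 _ hθ2)).1
  rw [norm_f] at h3
  have h4 := Real.exp_le_exp.mp h3
  have h5 := hh0 θ hθ0 hθ1
  have h6 := Vpos (ρ := ρ) hr0
  have h7 : r ^ 2 * Real.cos (2 * θ) ≤ r ^ 2 * 1 := by
    gcongr
    exact Real.cos_le_one _
  have h8 : (L / 4) * r ^ ρ r ≤ (h θ - L / 4) * r ^ ρ r := by
    gcongr
    linarith
  rw [div_mul_eq_mul_div, le_div_iff₀ hL0]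
  linarith

/-- a function of completely regular growth is bounded by `C e^{B |z|²}` when `V(r) ≤ c₂ r²` -/
lemma global_bound {ρ : ℝ → ℝ} {F : ℂ → ℂ} (hF : Differentiable ℂ F) (htyp : typ ρ F < ⊤)
    {c₂ : ℝ} (hc₂ : 0 < c₂) (hV : ∀ᶠ r : ℝ in atTop, r ^ ρ r ≤ c₂ * r ^ 2) :
    ∃ C B : ℝ, 1 ≤ C ∧ 0 ≤ B ∧ ∀ z, ‖F z‖ ≤ C * Real.exp (B * ‖z‖ ^ 2) := by
  obtain ⟨B, hB⟩ := typ_upper htyp
  obtain ⟨R, hR⟩ := eventually_atTop.mp (hB.and (hV.and (eventually_gt_atTop 0)))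
  obtain ⟨M, hM⟩ := (isCompact_closedBall (0 : ℂ) |R|).exists_bound_of_continuousOn
    hF.continuous.continuousOn
  refine ⟨max 1 M, |B| * c₂, le_max_left _ _, by positivity, fun z => ?_⟩
  have hE : 1 ≤ Real.exp (|B| * c₂ * ‖z‖ ^ 2) := Real.one_le_exp (by positivity)
  rcases le_or_gt ‖z‖ |R| with h | h
  · have h1 := hM z (by rw [mem_closedBall, dist_zero_right]; exact h)
    have h2 : 0 ≤ max 1 M := by positivity
    calc ‖F z‖ ≤ max 1 M := h1.trans (le_max_right _ _)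
      _ ≤ _ := le_mul_of_one_le_right h2 hE
  · obtain ⟨h1, h2, h3⟩ := hR ‖z‖ ((le_abs_self R).trans h.le)
    have h4 := h1 z rfl
    have h5 := Vpos (ρ := ρ) h3
    calc ‖F z‖ ≤ Real.exp (B * ‖z‖ ^ ρ ‖z‖) := h4
      _ ≤ Real.exp (|B| * c₂ * ‖z‖ ^ 2) := by
        apply Real.exp_le_exp.mpr
        calc B * ‖z‖ ^ ρ ‖z‖ ≤ |B| * ‖z‖ ^ ρ ‖z‖ := by
              gcongr
              exact le_abs_self B
          _ ≤ |B| * (c₂ * ‖z‖ ^ 2) := by gcongr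
          _ = _ := by ring
      _ = 1 * Real.exp (|B| * c₂ * ‖z‖ ^ 2) := (one_mul _).symm
      _ ≤ _ := by
        gcongr
        exact le_max_left _ _

/-- the main contradiction -/
theorem no_crg {ρ : ℝ → ℝ} {F : ℂ → ℂ} (hf : ∀ z, G F 0 z = Complex.exp (z ^ 2)) {c₁ c₂ : ℝ}
    (hc₁ : 0 < c₁) (hc₂ : 0 < c₂) (hV : ∀ᶠ r : ℝ in atTop, c₁ * r ^ 2 ≤ r ^ ρ r ∧
      r ^ ρ r ≤ c₂ * r ^ 2) : ¬ CRG ρ F := by
  rintro ⟨hF, htyp, h, hh, c, s, hs, hthin, hreg⟩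
  obtain ⟨C, B, hC, hB, hFb⟩ := global_bound hF htyp hc₂ (hV.mono fun r hr => hr.2)
  -- the indicator is nonpositive in the valleys
  have hval : ∀ θ : ℝ, Real.cos (2 * θ) ≤ 0 → h θ ≤ 0 := by
    intro θ hθ
    by_contra hcon
    push Not at hcon
    set ε : ℝ := h θ / (2 * (1 + 1 / c₁)) with hε
    have hε0 : 0 < ε := by positivity
    have hεh : ε * (1 + 1 / c₁) = h θ / 2 := by rw [hε]; field_simp
    obtain ⟨R₀, hR₀⟩ := hreg ε hε0
    obtain ⟨R₁, hR₁, hcirc⟩ := circ (c := c) (ρ := s) ⟨hs, hthin⟩ (δ := 1 / 2) (by norm_num)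
      (by norm_num)
    obtain ⟨R₂, hR₂⟩ := eventually_atTop.mp hV
    have hev : ∀ᶠ k : ℕ in atTop, max (max R₀ R₁) R₂ ≤ lam k ^ 2 := by
      have h1 : Tendsto (fun k => lam k ^ 2) atTop atTop :=
        (tendsto_pow_atTop (by norm_num)).comp tendsto_lam
      exact h1.eventually_ge_atTop _
    obtain ⟨k, hk1, hk2⟩ := ((claimA hF hC hB hFb hf hε0).and hev).exists
    set r : ℝ := lam k ^ 2 with hr
    have hr0 : 0 < r := by have := lam_pos k; positivity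
    set u : ℂ := Complex.exp (θ * Complex.I) with hu
    have hun : ‖u‖ = 1 := Complex.norm_exp_ofReal_mul_I θ
    obtain ⟨s', hs'0, hs'1, hs'2⟩ := hcirc ((r : ℂ) * u) (by
      rw [norm_mul, hun, mul_one, ofReal_norm' hr0.le]
      exact (le_max_right _ _).trans ((le_max_left _ _).trans hk2))
    rw [norm_mul, hun, mul_one, ofReal_norm' hr0.le] at hs'1
    set τ : ℝ := r + s' with hτ
    have hτ0 : 0 < τ := by linarith
    have hw : ‖(τ : ℂ) * u - (r : ℂ) * u‖ = s' := by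
      have : (τ : ℂ) * u - (r : ℂ) * u = (s' : ℂ) * u := by rw [hτ]; push_cast; ring
      rw [this, norm_mul, hun, mul_one, ofReal_norm' hs'0.le]
    have hmax1 : R₀ ≤ τ := by
      have := (le_max_left R₀ R₁).trans ((le_max_left _ R₂).trans hk2)
      linarith
    have hmax2 : R₂ ≤ τ := by
      have := (le_max_right (max R₀ R₁) R₂).trans hk2
      linarith
    have h1 := (hR₀ τ hmax1 θ (hs'2 _ hw)).1
    have h2 := hk1 u hun (by
      have := re_sq_polar 1 θ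
      rw [Complex.ofReal_one, one_mul] at this
      rw [hu, this]
      linarith) τ (by linarith) (by linarith)
    have h3 := Real.exp_le_exp.mp (h1.trans h2)
    obtain ⟨h4, h5⟩ := hR₂ τ hmax2
    have h6 := Vpos (ρ := ρ) hτ0
    have h7 : ε * τ ^ 2 ≤ ε * (1 / c₁ * τ ^ ρ τ) := by
      apply mul_le_mul_of_nonneg_left _ hε0.le
      rw [one_div, ← div_eq_inv_mul, le_div_iff₀ hc₁]
      linarith
    have h8 : (h θ - ε) * τ ^ ρ τ ≤ (ε * (1 / c₁)) * τ ^ ρ τ := by linarith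
    have h9 := le_of_mul_le_mul_right h8 h6
    nlinarith
  -- small growth near the two points `lam k (1 ± 2i)`
  set ε : ℝ := 1 / (64 * c₂) with hε
  have hε0 : 0 < ε := by positivity
  obtain ⟨R₀, hR₀⟩ := hreg ε hε0
  obtain ⟨R₁, hR₁, hcirc⟩ := circ (c := c) (ρ := s) ⟨hs, hthin⟩ (δ := 1 / 10) (by norm_num)
    (by norm_num)
  obtain ⟨R₂, hR₂⟩ := eventually_atTop.mp hV
  have hev : ∀ᶠ k : ℕ in atTop, max (max |R₀| R₁) |R₂| ≤ lam k := tendsto_lam.eventually_ge_atTop _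
  obtain ⟨k, hk⟩ := hev.exists
  have hkR₀ : R₀ ≤ lam k :=
    (le_abs_self _).trans ((le_max_left |R₀| R₁).trans ((le_max_left _ |R₂|).trans hk))
  have hkR₁ : R₁ ≤ lam k := (le_max_right |R₀| R₁).trans ((le_max_left _ |R₂|).trans hk)
  have hkR₂ : R₂ ≤ lam k := (le_abs_self _).trans ((le_max_right _ |R₂|).trans hk)
  set Λ : ℝ := lam k with hΛ
  have hΛ8 : 8 ≤ Λ := lam_ge k
  have key : ∀ (y : ℝ), |y| = 2 * Λ → ∀ z : ℂ, ‖z - (Λ + (y : ℂ) * Complex.I)‖ ≤ 1 →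
      ‖F z‖ ≤ Real.exp (Λ ^ 2 / 8) := by
    intro y hy z hz
    have hre : |z.re - Λ| ≤ 1 := by
      have := (Complex.abs_re_le_norm (z - (Λ + (y : ℂ) * Complex.I))).trans hz
      simpa using this
    have him : |z.im - y| ≤ 1 := by
      have := (Complex.abs_im_le_norm (z - (Λ + (y : ℂ) * Complex.I))).trans hz
      simpa using this
    have hre' := abs_le.mp hre
    have hzn1 : 2 * Λ - 1 ≤ |z.im| := by
      have := abs_sub_abs_le_abs_sub y z.im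
      rw [abs_sub_comm, hy] at this
      linarith
    have hzn2 : |z.im| ≤ 2 * Λ + 1 := by
      have := abs_sub_abs_le_abs_sub z.im y
      rw [hy] at this
      linarith
    have hzsq : ‖z‖ ^ 2 = z.re ^ 2 + z.im ^ 2 := by
      rw [← Complex.normSq_eq_norm_sq, Complex.normSq_apply]; ring
    have hzim2 : z.im ^ 2 ≤ (2 * Λ + 1) ^ 2 := by
      rw [← sq_abs]
      exact pow_le_pow_left₀ (abs_nonneg _) hzn2 2
    have hzre2 : z.re ^ 2 ≤ (Λ + 1) ^ 2 := pow_le_pow_left₀ (by linarith) (by linarith) 2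
    have hzup : ‖z‖ ≤ 5 / 2 * Λ := by
      rw [← sq_le_sq₀ (norm_nonneg _) (by positivity), hzsq]
      nlinarith
    have hzlow : 2 * Λ - 1 ≤ ‖z‖ := hzn1.trans (Complex.abs_im_le_norm z)
    obtain ⟨s', hs'0, hs'1, hs'2⟩ := hcirc z (by linarith)
    apply max_princ hF (z₀ := z) hs'0 _ z (by simp [hs'0.le])
    intro w hw
    have hwre : |w.re| ≤ Λ + 1 + Λ / 4 := by
      have h1 := Complex.abs_re_le_norm (w - z)
      rw [hw, Complex.sub_re] at h1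
      have h2 := abs_sub_abs_le_abs_sub w.re z.re
      have h3 : |z.re| ≤ Λ + 1 := abs_le.mpr ⟨by linarith, by linarith⟩
      linarith
    have hwim : 2 * Λ - 1 - Λ / 4 ≤ |w.im| := by
      have h1 := Complex.abs_im_le_norm (w - z)
      rw [hw, Complex.sub_im] at h1
      have h2 := abs_sub_abs_le_abs_sub z.im w.im
      rw [abs_sub_comm] at h2
      linarith
    have hwval : (w ^ 2).re ≤ 0 := by
      have h1 : (w ^ 2).re = w.re ^ 2 - w.im ^ 2 := by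
        rw [sq, Complex.mul_re]; ring
      rw [h1, ← sq_abs w.re, ← sq_abs w.im]
      have h2 : |w.re| ≤ |w.im| := by linarith
      have := pow_le_pow_left₀ (abs_nonneg _) h2 2
      linarith
    have hwup : ‖w‖ ≤ 11 / 4 * Λ := by
      have h1 := norm_add_le (w - z) z
      rw [sub_add_cancel, hw] at h1
      linarith
    have hwlow : Λ ≤ ‖w‖ := by
      have h1 := Complex.abs_im_le_norm w
      linarith
    have hw0 : 0 < ‖w‖ := by linarith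
    have hwpol : (‖w‖ : ℂ) * Complex.exp (w.arg * Complex.I) = w := Complex.norm_mul_exp_arg_mul_I w
    have hcos : Real.cos (2 * w.arg) ≤ 0 := by
      have h1 := re_sq_polar ‖w‖ w.arg
      rw [hwpol] at h1
      rw [h1] at hwval
      by_contra hcon
      push Not at hcon
      have : 0 < ‖w‖ ^ 2 * Real.cos (2 * w.arg) := by positivity
      linarith
    have h1 := (hR₀ ‖w‖ (by linarith) w.arg (by rw [hwpol]; exact hs'2 w hw)).2
    rw [hwpol] at h1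
    have h2 := hval w.arg hcos
    have h3 := (hR₂ ‖w‖ (by linarith)).2
    have h4 := Vpos (ρ := ρ) hw0
    refine h1.trans (Real.exp_le_exp.mpr ?_)
    calc (h w.arg + ε) * ‖w‖ ^ ρ ‖w‖ ≤ ε * ‖w‖ ^ ρ ‖w‖ := by
          gcongr
          linarith
      _ ≤ ε * (c₂ * ‖w‖ ^ 2) := by gcongr
      _ = ‖w‖ ^ 2 / 64 := by rw [hε]; field_simp
      _ ≤ (11 / 4 * Λ) ^ 2 / 64 := by gcongr
      _ ≤ Λ ^ 2 / 8 := by nlinarith [sq_nonneg Λ]
  exact claimB hF hf k (key (2 * Λ) (abs_of_pos (by linarith)))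
    (key (-(2 * Λ)) (by rw [abs_neg]; exact abs_of_pos (by linarith)))

end Pool.Agent.Helper960.Inf
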