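import Pool.Agent.Helper960.Inf.Seq

open Filter Topology Metric

namespace Pool.Agent.Helper960.Inf

/-- the operator `∏_{i ≥ j} (1 - D / lam i)` -/
noncomputable def G (F : ℂ → ℂ) (j : ℕ) (z : ℂ) : ℂ := ∑' n, (ac n j : ℂ) * iteratedDeriv n F z

lemma iter_diff {F : ℂ → ℂ} (hF : Differentiable ℂ F) (k : ℕ) :
    Differentiable ℂ (iteratedDeriv k F) := by
  have h : ContDiff ℂ ⊤ F := hF.contDiff
  exact (h.differentiable_iteratedDeriv k (by exact_mod_cast WithTop.coe_lt_top (k : ℕ∞)))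

lemma iter_hasDeriv {F : ℂ → ℂ} (hF : Differentiable ℂ F) (k : ℕ) (z : ℂ) :
    HasDerivAt (iteratedDeriv k F) (iteratedDeriv (k + 1) F z) z := by
  rw [iteratedDeriv_succ]
  exact (iter_diff hF k z).hasDerivAt

lemma cauchy1 {F : ℂ → ℂ} (hF : Differentiable ℂ F) {z : ℂ} {M : ℝ}
    (hM : ∀ w : ℂ, ‖w - z‖ ≤ 1 → ‖F w‖ ≤ M) (n : ℕ) :
    ‖iteratedDeriv n F z‖ ≤ n.factorial * M := by
  have := Complex.norm_iteratedDeriv_le_of_forall_mem_sphere_norm_le (c := z) (R := 1)
    (f := F) (C := M) n one_pos hF.diffContOnCl (by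
      intro w hw
      rw [mem_sphere, dist_eq_norm] at hw
      exact hM w hw.le)
  simpa using this

lemma two_mu (j : ℕ) : 0 < 2 * mu j ∧ 2 * mu j ≤ 1 / 4 := by
  have := mu_pos j
  have := mu_le j
  constructor <;> linarith

lemma term_le {F : ℂ → ℂ} (hF : Differentiable ℂ F) {z : ℂ} {M : ℝ}
    (hM : ∀ w : ℂ, ‖w - z‖ ≤ 1 → ‖F w‖ ≤ M) (j n : ℕ) :
    ‖(ac n j : ℂ) * iteratedDeriv n F z‖ ≤ (2 * mu j) ^ n * M := by
  have h1 := cauchy1 hF hM n
  have h2 := ac_bound n j
  have hf : (0 : ℝ) < n.factorial := by exact_mod_cast n.factorial_pos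
  rw [norm_mul, Complex.norm_real, Real.norm_eq_abs]
  calc |ac n j| * ‖iteratedDeriv n F z‖ ≤ ((2 * mu j) ^ n / n.factorial) * (n.factorial * M) := by
        apply mul_le_mul h2 h1 (norm_nonneg _)
        have := mu_pos j
        positivity
    _ = _ := by field_simp

lemma geo_mu (j : ℕ) : Summable (fun n : ℕ => (2 * mu j) ^ n) :=
  summable_geometric_of_lt_one (two_mu j).1.le (by linarith [(two_mu j).2])

lemma G_summable {F : ℂ → ℂ} (hF : Differentiable ℂ F) (j : ℕ) (z : ℂ) :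
    Summable (fun n => (ac n j : ℂ) * iteratedDeriv n F z) := by
  obtain ⟨M, hM⟩ := (isCompact_closedBall z 1).exists_bound_of_continuousOn
    hF.continuous.continuousOn
  apply Summable.of_norm_bounded ((geo_mu j).mul_right M)
  intro n
  apply term_le hF
  intro w hw
  apply hM
  rwa [mem_closedBall, dist_eq_norm]

lemma G_bound {F : ℂ → ℂ} (hF : Differentiable ℂ F) {z : ℂ} {M : ℝ}
    (hM : ∀ w : ℂ, ‖w - z‖ ≤ 1 → ‖F w‖ ≤ M) (j : ℕ) : ‖G F j z‖ ≤ 2 * M := by
  have hM0 : 0 ≤ M := (norm_nonneg _).trans (hM z (by simp))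
  have h1 : HasSum (fun n : ℕ => (2 * mu j) ^ n * M) ((1 - 2 * mu j)⁻¹ * M) :=
    (hasSum_geometric_of_lt_one (two_mu j).1.le (by linarith [(two_mu j).2])).mul_right M
  have h2 := tsum_of_norm_bounded h1 (term_le hF hM j)
  refine h2.trans ?_
  apply mul_le_mul_of_nonneg_right _ hM0
  rw [inv_le_comm₀ (by linarith [(two_mu j).2]) (by norm_num)]
  linarith [(two_mu j).2]

lemma G_close {F : ℂ → ℂ} (hF : Differentiable ℂ F) {z : ℂ} {M : ℝ}
    (hM : ∀ w : ℂ, ‖w - z‖ ≤ 1 → ‖F w‖ ≤ M) (j : ℕ) : ‖G F j z - F z‖ ≤ 4 * mu j * M := by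
  have hM0 : 0 ≤ M := (norm_nonneg _).trans (hM z (by simp))
  have h0 : G F j z - F z = ∑' n, (ac (n + 1) j : ℂ) * iteratedDeriv (n + 1) F z := by
    unfold G
    rw [(G_summable hF j z).tsum_eq_zero_add, ac_zero]
    simp
  rw [h0]
  have h1 : HasSum (fun n : ℕ => (2 * mu j) * ((2 * mu j) ^ n * M))
      ((2 * mu j) * ((1 - 2 * mu j)⁻¹ * M)) :=
    ((hasSum_geometric_of_lt_one (two_mu j).1.le
      (by linarith [(two_mu j).2])).mul_right M).mul_left _
  have h2 := tsum_of_norm_bounded h1 (fun n => (term_le hF hM j (n + 1)).trans (by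
    rw [pow_succ]
    apply le_of_eq; ring))
  refine h2.trans ?_
  have h3 : (1 - 2 * mu j)⁻¹ ≤ 2 := by
    rw [inv_le_comm₀ (by linarith [(two_mu j).2]) (by norm_num)]
    linarith [(two_mu j).2]
  have h4 := (two_mu j).1
  calc (2 * mu j) * ((1 - 2 * mu j)⁻¹ * M) ≤ (2 * mu j) * (2 * M) := by gcongr
    _ = _ := by ring

lemma G_hasDeriv {F : ℂ → ℂ} (hF : Differentiable ℂ F) (j : ℕ) (z : ℂ) :
    HasDerivAt (G F j) (∑' n, (ac n j : ℂ) * iteratedDeriv (n + 1) F z) z := by
  obtain ⟨M, hM⟩ := (isCompact_closedBall z 2).exists_bound_of_continuousOn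
    hF.continuous.continuousOn
  have hM0 : 0 ≤ M := (norm_nonneg _).trans (hM z (by simp))
  have hs : Summable (fun n : ℕ => ((n : ℝ) ^ 1 * (2 * mu j) ^ n + (2 * mu j) ^ n) * M) := by
    apply Summable.mul_right
    apply Summable.add
    · exact summable_pow_mul_geometric_of_norm_lt_one 1 (by
        rw [Real.norm_eq_abs, abs_of_pos (two_mu j).1]
        linarith [(two_mu j).2])
    · exact geo_mu j
  apply hasDerivAt_tsum_of_isPreconnected hs (t := ball z 1) isOpen_ball
    (convex_ball z 1).isPreconnected (g := fun n w => (ac n j : ℂ) * iteratedDeriv n F w)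
    (g' := fun n w => (ac n j : ℂ) * iteratedDeriv (n + 1) F w) (y₀ := z)
  · intro n w _
    exact (iter_hasDeriv hF n w).const_mul _
  · intro n w hw
    rw [mem_ball, dist_eq_norm] at hw
    have h1 := cauchy1 hF (z := w) (M := M) (by
      intro v hv
      apply hM
      rw [mem_closedBall, dist_eq_norm]
      have := norm_add_le (v - w) (w - z)
      rw [sub_add_sub_cancel] at this
      linarith) (n + 1)
    have h2 := ac_bound n j
    have hf : (0 : ℝ) < n.factorial := by exact_mod_cast n.factorial_pos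
    rw [norm_mul, Complex.norm_real, Real.norm_eq_abs]
    calc |ac n j| * ‖iteratedDeriv (n + 1) F w‖ ≤
          ((2 * mu j) ^ n / n.factorial) * ((n + 1).factorial * M) := by
          apply mul_le_mul h2 h1 (norm_nonneg _)
          have := mu_pos j
          positivity
      _ = ((n : ℝ) ^ 1 * (2 * mu j) ^ n + (2 * mu j) ^ n) * M := by
        rw [Nat.factorial_succ]
        push_cast
        field_simp
  · exact mem_ball_self one_pos
  · exact G_summable hF j z
  · exact mem_ball_self one_pos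

lemma G_diff {F : ℂ → ℂ} (hF : Differentiable ℂ F) (j : ℕ) : Differentiable ℂ (G F j) :=
  fun z => (G_hasDeriv hF j z).differentiableAt

lemma G_rec {F : ℂ → ℂ} (hF : Differentiable ℂ F) (j : ℕ) (z : ℂ) :
    G F j z = G F (j + 1) z - mu j * deriv (G F (j + 1)) z := by
  rw [(G_hasDeriv hF (j + 1) z).deriv]
  have hs1 := G_summable hF (j + 1) z
  have hs2 : Summable (fun n => (ac n (j + 1) : ℂ) * iteratedDeriv (n + 1) F z) := by
    have h1 := G_summable (F := deriv F) (by
      have := iter_diff hF 1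
      rwa [iteratedDeriv_one] at this) (j + 1) z
    refine h1.congr (fun n => ?_)
    rw [iteratedDeriv_succ']
  unfold G
  rw [(G_summable hF j z).tsum_eq_zero_add, hs1.tsum_eq_zero_add, ac_zero, ac_zero, add_sub_assoc]
  congr 1
  have hs1' : Summable (fun n => (ac (n + 1) (j + 1) : ℂ) * iteratedDeriv (n + 1) F z) :=
    (summable_nat_add_iff 1).mpr hs1
  rw [← tsum_mul_left, ← hs1'.tsum_sub (hs2.mul_left _)]
  congr 1
  funext n
  rw [ac_rec]
  push_cast
  ring

end Pool.Agent.Helper960.Inf
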