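import Mathlib

open Filter Topology Metric

namespace Pool.Agent.Helper960.Inf

/-- a very lacunary sequence -/
noncomputable def lam : ℕ → ℝ
  | 0 => 8
  | (k + 1) => Real.exp (lam k ^ 6)

lemma lam_zero : lam 0 = 8 := by rw [lam]

lemma lam_succ (k : ℕ) : lam (k + 1) = Real.exp (lam k ^ 6) := by rw [lam]

lemma lam_ge (k : ℕ) : 8 ≤ lam k := by
  induction k with
  | zero => rw [lam_zero]
  | succ k ih =>
    rw [lam_succ]
    have h1 := Real.add_one_le_exp (lam k ^ 6)
    have h2 : lam k ≤ lam k ^ 6 := by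
      calc lam k = lam k ^ 1 := (pow_one _).symm
        _ ≤ lam k ^ 6 := pow_le_pow_right₀ (by linarith) (by norm_num)
    linarith

lemma lam_pos (k : ℕ) : 0 < lam k := by linarith [lam_ge k]

lemma two_lam_le (k : ℕ) : 2 * lam k ≤ lam (k + 1) := by
  rw [lam_succ]
  have h1 := Real.add_one_le_exp (lam k ^ 6)
  have h2 : lam k ^ 2 ≤ lam k ^ 6 := pow_le_pow_right₀ (by linarith [lam_ge k]) (by norm_num)
  have h3 := lam_ge k
  nlinarith

lemma lam_add (j i : ℕ) : 2 ^ i * lam j ≤ lam (j + i) := by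
  induction i with
  | zero => simp
  | succ i ih =>
    have := two_lam_le (j + i)
    rw [← add_assoc, pow_succ]
    nlinarith

lemma lam_mono {i j : ℕ} (h : i ≤ j) : lam i ≤ lam j := by
  obtain ⟨k, rfl⟩ := Nat.exists_eq_add_of_le h
  have h1 := lam_add i k
  have h2 : (1 : ℝ) ≤ 2 ^ k := one_le_pow₀ (by norm_num)
  nlinarith [lam_pos i]

lemma lam_pow (k : ℕ) : 8 * 2 ^ k ≤ lam k := by
  have := lam_add 0 k
  rw [lam_zero, zero_add] at this
  linarith

/-- reciprocals -/
noncomputable def mu (k : ℕ) : ℝ := 1 / lam k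

lemma mu_pos (k : ℕ) : 0 < mu k := by unfold mu; have := lam_pos k; positivity

lemma mu_add (j i : ℕ) : mu (j + i) ≤ mu j * (1 / 2) ^ i := by
  unfold mu
  have h1 := lam_add j i
  have h2 := lam_pos j
  have h3 := lam_pos (j + i)
  rw [one_div_pow, one_div_mul_one_div, one_div_le_one_div h3 (by positivity)]
  linarith

lemma mu_le (k : ℕ) : mu k ≤ 1 / 8 := by
  unfold mu
  exact one_div_le_one_div_of_le (by norm_num) (lam_ge k)

/-- coefficients of `∏_{i ≥ j} (1 - t / lam i)` -/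
noncomputable def ac : ℕ → ℕ → ℝ
  | 0, _ => 1
  | (n + 1), j => -∑' i, mu (j + i) * ac n (j + i + 1)

lemma ac_zero (j : ℕ) : ac 0 j = 1 := by rw [ac]

lemma ac_succ (n j : ℕ) : ac (n + 1) j = -∑' i, mu (j + i) * ac n (j + i + 1) := by rw [ac]

lemma ac_term {n : ℕ} (ih : ∀ j, |ac n j| ≤ (2 * mu j) ^ n / n.factorial) (j i : ℕ) :
    |mu (j + i) * ac n (j + i + 1)| ≤ mu j ^ (n + 1) / n.factorial * ((1 / 2) ^ (n + 1)) ^ i := by
  have h1 := ih (j + i + 1)
  have h2 := mu_add j i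
  have h3 := mu_add j (i + 1)
  rw [← add_assoc] at h3
  have h4 := mu_pos j
  have h5 := mu_pos (j + i)
  have h6 := mu_pos (j + i + 1)
  rw [abs_mul, abs_of_pos h5]
  have h7 : 2 * mu (j + i + 1) ≤ mu j * (1 / 2) ^ i := by
    rw [pow_succ] at h3
    linarith
  have h8 : (2 * mu (j + i + 1)) ^ n ≤ (mu j * (1 / 2) ^ i) ^ n :=
    pow_le_pow_left₀ (by positivity) h7 n
  have hf : (0 : ℝ) < n.factorial := by exact_mod_cast n.factorial_pos
  calc mu (j + i) * |ac n (j + i + 1)| ≤ (mu j * (1 / 2) ^ i) *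
        ((mu j * (1 / 2) ^ i) ^ n / n.factorial) := by
        apply mul_le_mul h2 _ (abs_nonneg _) (by positivity)
        exact h1.trans (by gcongr)
    _ = (mu j * (1 / 2) ^ i) ^ (n + 1) / n.factorial := by rw [pow_succ]; ring
    _ = _ := by
      rw [mul_pow, ← pow_mul, ← pow_mul, mul_comm i]
      ring

lemma geo_sum (n : ℕ) : Summable (fun i : ℕ => ((1 / 2 : ℝ) ^ (n + 1)) ^ i) ∧
    ∑' i : ℕ, ((1 / 2 : ℝ) ^ (n + 1)) ^ i ≤ 2 := by
  have h0 : (0 : ℝ) ≤ (1 / 2) ^ (n + 1) := by positivity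
  have h2 : ((1 / 2 : ℝ)) ^ (n + 1) ≤ 1 / 2 := by
    calc ((1 / 2 : ℝ)) ^ (n + 1) ≤ (1 / 2) ^ 1 :=
          pow_le_pow_of_le_one (by norm_num) (by norm_num) (by omega)
      _ = 1 / 2 := pow_one _
  have h1 : ((1 / 2 : ℝ)) ^ (n + 1) < 1 := by linarith
  refine ⟨summable_geometric_of_lt_one h0 h1, ?_⟩
  rw [tsum_geometric_of_lt_one h0 h1]
  rw [inv_le_comm₀ (by linarith) (by norm_num)]
  linarith

lemma ac_bound (n : ℕ) : ∀ j, |ac n j| ≤ (2 * mu j) ^ n / n.factorial := by
  induction n with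
  | zero => intro j; simp [ac_zero]
  | succ n ih =>
    intro j
    obtain ⟨h1, h2⟩ := geo_sum n
    have h3 : Summable (fun i => |mu (j + i) * ac n (j + i + 1)|) :=
      Summable.of_nonneg_of_le (fun _ => abs_nonneg _) (ac_term ih j) (h1.mul_left _)
    rw [ac_succ, abs_neg]
    have hf : (0 : ℝ) < n.factorial := by exact_mod_cast n.factorial_pos
    have hn : ((n : ℝ) + 1) ≤ 2 ^ n := by
      have := Nat.lt_two_pow_self (n := n)
      exact_mod_cast this
    calc |∑' i, mu (j + i) * ac n (j + i + 1)| ≤ ∑' i, |mu (j + i) * ac n (j + i + 1)| := by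
          have := norm_tsum_le_tsum_norm (f := fun i => mu (j + i) * ac n (j + i + 1)) h3
          exact this
      _ ≤ ∑' i, mu j ^ (n + 1) / n.factorial * ((1 / 2) ^ (n + 1)) ^ i :=
          h3.tsum_le_tsum (ac_term ih j) (h1.mul_left _)
      _ = mu j ^ (n + 1) / n.factorial * ∑' i : ℕ, ((1 / 2 : ℝ) ^ (n + 1)) ^ i := tsum_mul_left
      _ ≤ mu j ^ (n + 1) / n.factorial * 2 := by
          have := mu_pos j
          gcongr
      _ ≤ (2 * mu j) ^ (n + 1) / (n + 1).factorial := by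
          rw [Nat.factorial_succ, mul_pow]
          push_cast
          rw [div_mul_eq_mul_div, div_le_div_iff₀ hf (by positivity)]
          have h4 : mu j ^ (n + 1) * 2 * (((n : ℝ) + 1) * n.factorial) =
            (mu j ^ (n + 1) * n.factorial) * (2 * ((n : ℝ) + 1)) := by ring
          have h5 : 2 ^ (n + 1) * mu j ^ (n + 1) * (n.factorial : ℝ) =
            (mu j ^ (n + 1) * n.factorial) * (2 * 2 ^ n) := by rw [pow_succ]; ring
          rw [h4, h5]
          have := mu_pos j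
          gcongr

lemma ac_rec (n j : ℕ) : ac (n + 1) j = ac (n + 1) (j + 1) - mu j * ac n (j + 1) := by
  have h1 : Summable (fun i => mu (j + i) * ac n (j + i + 1)) := by
    apply Summable.of_norm
    exact Summable.of_nonneg_of_le (fun _ => norm_nonneg _) (ac_term (ac_bound n) j)
      ((geo_sum n).1.mul_left _)
  rw [ac_succ, h1.tsum_eq_zero_add, ac_succ]
  have : (fun i => mu (j + (i + 1)) * ac n (j + (i + 1) + 1)) =
      fun i => mu (j + 1 + i) * ac n (j + 1 + i + 1) := by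
    funext i
    have e : j + (i + 1) = j + 1 + i := by ring
    rw [e]
  rw [this]
  simp only [add_zero]
  ring

end Pool.Agent.Helper960.Inf
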